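import Pool.Agent.U485.SM.Stm2

set_option autoImplicit false

/-!
# Project HT, second list, package FIV (helper122)

Five numbers `n, n + 2, …, n + 8` of which at least four belong to `Q`.
-/

open Finset MeasureTheory ProbabilityTheory Filter Topology

namespace Pool.Agent.U122.HT

open Pool.Agent.U485.SM

/-- if all classes modulo `3` are met, the product is zero -/
theorem PP_zero (H : Finset ℕ) (h3 : res H 3 = 3) : Tendsto (PP H) atTop (𝓝 0) := by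
  refine tendsto_const_nhds.congr' ?_
  filter_upwards [eventually_ge_atTop 3] with y hy
  symm
  unfold PP
  refine Finset.prod_eq_zero (i := 3) ?_ ?_
  · unfold Pr
    rw [Finset.mem_filter, Finset.mem_Icc]
    exact ⟨⟨by norm_num, hy⟩, Nat.prime_three⟩
  · rw [h3]
    norm_num

theorem res_four (p : ℕ) (hp : p.Prime) (h5 : 5 ≤ p) : res {0, 2, 6, 8} p = 4 := by
  rcases Nat.lt_or_ge p 9 with h | h
  · have : p = 5 ∨ p = 7 := by
      interval_cases p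
      · exact Or.inl rfl
      · exact absurd hp (by decide)
      · exact Or.inr rfl
      · exact absurd hp (by decide)
    rcases this with rfl | rfl <;> decide
  · unfold res
    rw [Finset.card_image_of_injOn]
    · rfl
    · intro a ha b hb hab
      have hlt : ∀ c ∈ (({0, 2, 6, 8} : Finset ℕ) : Set ℕ), c < p := by
        intro c hc
        simp only [Finset.coe_insert, Finset.coe_singleton, Set.mem_insert_iff,
          Set.mem_singleton_iff] at hc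
        omega
      simp only at hab
      rwa [Nat.mod_eq_of_lt (hlt a ha), Nat.mod_eq_of_lt (hlt b hb)] at hab

theorem PP_main (y : ℕ) (hy : 3 ≤ y) : PP {0, 2, 6, 8} y = 27 / 2 * K4 y := by
  have hset : Pr y = insert 2 (insert 3 ((Finset.Icc 5 y).filter Nat.Prime)) := by
    ext p
    unfold Pr
    simp only [Finset.mem_filter, Finset.mem_Icc, Finset.mem_insert]
    constructor
    · rintro ⟨⟨h1, h2⟩, hp⟩
      rcases Nat.lt_or_ge p 5 with h | h
      · interval_cases p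
        · exact absurd hp (by decide)
        · exact Or.inl rfl
        · exact Or.inr (Or.inl rfl)
        · exact absurd hp (by decide)
      · exact Or.inr (Or.inr ⟨⟨h, h2⟩, hp⟩)
    · rintro (rfl | rfl | ⟨⟨h1, h2⟩, hp⟩)
      · exact ⟨⟨by norm_num, by omega⟩, Nat.prime_two⟩
      · exact ⟨⟨by norm_num, hy⟩, Nat.prime_three⟩
      · exact ⟨⟨by omega, h2⟩, hp⟩
  have hcard : ({0, 2, 6, 8} : Finset ℕ).card = 4 := rfl
  unfold PP K4
  rw [hset, Finset.prod_insert (by simp), Finset.prod_insert (by simp), hcard]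
  have e2 : res {0, 2, 6, 8} 2 = 1 := by decide
  have e3 : res {0, 2, 6, 8} 3 = 2 := by decide
  rw [e2, e3, ← mul_assoc]
  have e4 : ((1 - ((1 : ℕ) : ℝ) / ((2 : ℕ) : ℝ)) * (1 - 1 / ((2 : ℕ) : ℝ))⁻¹ ^ 4) *
      ((1 - ((2 : ℕ) : ℝ) / ((3 : ℕ) : ℝ)) * (1 - 1 / ((3 : ℕ) : ℝ))⁻¹ ^ 4) = 27 / 2 := by
    norm_num
  rw [e4]
  congr 1
  refine Finset.prod_congr rfl fun p hp => ?_
  rw [Finset.mem_filter, Finset.mem_Icc] at hp
  rw [res_four p hp.2 hp.1.1]
  have hp5 : (5 : ℝ) ≤ p := by exact_mod_cast hp.1.1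
  have h1 : (p : ℝ) ≠ 0 := by linarith
  have h2 : (p : ℝ) - 1 ≠ 0 := by linarith
  have h3 : (1 : ℝ) - 1 / p = (p - 1) / p := by
    field_simp
  rw [h3, inv_div]
  push_cast
  field_simp

theorem PP_tendsto (C : ℝ) (hC : Tendsto K4 atTop (𝓝 C)) :
    Tendsto (PP {0, 2, 6, 8}) atTop (𝓝 (27 / 2 * C)) := by
  refine (hC.const_mul (27 / 2)).congr' ?_
  filter_upwards [eventually_ge_atTop 3] with y hy
  exact (PP_main y hy).symm

/-- the set counted by `num` -/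
def S (Q : Set ℕ) (H : Finset ℕ) (a b : ℕ) : Set ℕ := {n : ℕ | a < n ∧ n ≤ b ∧ ∀ h ∈ H, n + h ∈ Q}

theorem S_fin (Q : Set ℕ) (H : Finset ℕ) (a b : ℕ) : (S Q H a b).Finite :=
  (Set.finite_Ioc a b).subset fun _ hn => ⟨hn.1, hn.2.1⟩

theorem four_of (Q : Set ℕ) (n : ℕ) (h : 4 ≤ {j : ℕ | j < 5 ∧ n + 2 * j ∈ Q}.ncard) :
    (∀ h ∈ ({0, 2, 6, 8} : Finset ℕ), n + h ∈ Q) ∨ (∀ h ∈ ({2, 4, 6, 8} : Finset ℕ), n + h ∈ Q) ∨
    (∀ h ∈ ({0, 4, 6, 8} : Finset ℕ), n + h ∈ Q) ∨ (∀ h ∈ ({0, 2, 4, 8} : Finset ℕ), n + h ∈ Q) ∨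
    (∀ h ∈ ({0, 2, 4, 6} : Finset ℕ), n + h ∈ Q) := by
  classical
  have e : {j : ℕ | j < 5 ∧ n + 2 * j ∈ Q} = ((range 5).filter (fun j => n + 2 * j ∈ Q) : Finset ℕ) := by
    ext j
    simp
  rw [e, Set.ncard_coe_finset, Finset.card_filter] at h
  simp only [Finset.sum_range_succ, Finset.sum_range_zero, Nat.mul_zero, Nat.add_zero, Nat.mul_one,
    Nat.zero_add] at h
  simp only [Finset.mem_insert, Finset.mem_singleton, forall_eq_or_imp, forall_eq, Nat.add_zero]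
  by_cases b0 : n ∈ Q <;> by_cases b1 : n + 2 ∈ Q <;> by_cases b2 : n + 2 * 2 ∈ Q <;>
    by_cases b3 : n + 2 * 3 ∈ Q <;> by_cases b4 : n + 2 * 4 ∈ Q <;>
    simp [b0, b1, b2, b3, b4] at h ⊢

theorem of_four (Q : Set ℕ) (n : ℕ) (h : ∀ h ∈ ({0, 2, 6, 8} : Finset ℕ), n + h ∈ Q) :
    4 ≤ {j : ℕ | j < 5 ∧ n + 2 * j ∈ Q}.ncard := by
  have h1 : (({0, 1, 3, 4} : Finset ℕ) : Set ℕ) ⊆ {j : ℕ | j < 5 ∧ n + 2 * j ∈ Q} := by
    intro j hj
    simp only [Finset.coe_insert, Finset.coe_singleton, Set.mem_insert_iff,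
      Set.mem_singleton_iff] at hj
    rcases hj with rfl | rfl | rfl | rfl
    · exact ⟨by norm_num, h 0 (by decide)⟩
    · exact ⟨by norm_num, h 2 (by decide)⟩
    · exact ⟨by norm_num, h 6 (by decide)⟩
    · exact ⟨by norm_num, h 8 (by decide)⟩
  have h2 : {j : ℕ | j < 5 ∧ n + 2 * j ∈ Q}.Finite := (Set.finite_Iio 5).subset fun _ hj => hj.1
  have h3 := Set.ncard_le_ncard h1 h2
  rw [Set.ncard_coe_finset] at h3
  exact h3

/-- package FIV -/
theorem t_FIV : S_FIV := by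
  intro Q hQ C hC d η hd hη
  have l0 := hQ {0, 2, 6, 8} (27 / 2 * C) (PP_tendsto C hC) (d / 5) η (by positivity) hη
  have l1 := hQ {2, 4, 6, 8} 0 (PP_zero _ (by decide)) (d / 5) η (by positivity) hη
  have l2 := hQ {0, 4, 6, 8} 0 (PP_zero _ (by decide)) (d / 5) η (by positivity) hη
  have l3 := hQ {0, 2, 4, 8} 0 (PP_zero _ (by decide)) (d / 5) η (by positivity) hη
  have l4 := hQ {0, 2, 4, 6} 0 (PP_zero _ (by decide)) (d / 5) η (by positivity) hη
  filter_upwards [l0, l1, l2, l3, l4, eventually_ge_atTop 1] with x g0 g1 g2 g3 g4 hx h hh1 hh2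
  have hx1 : (1 : ℝ) ≤ x := by exact_mod_cast hx
  have hh : (0 : ℝ) < h := lt_of_lt_of_le (Real.rpow_pos_of_pos (by linarith) _) hh1
  have a0 := g0 h hh1 hh2
  have a1 := g1 h hh1 hh2
  have a2 := g2 h hh1 hh2
  have a3 := g3 h hh1 hh2
  have a4 := g4 h hh1 hh2
  have c0 : ({0, 2, 6, 8} : Finset ℕ).card = 4 := rfl
  have c1 : ({2, 4, 6, 8} : Finset ℕ).card = 4 := rfl
  have c2 : ({0, 4, 6, 8} : Finset ℕ).card = 4 := rfl
  have c3 : ({0, 2, 4, 8} : Finset ℕ).card = 4 := rfl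
  have c4 : ({0, 2, 4, 6} : Finset ℕ).card = 4 := rfl
  rw [c0] at a0
  rw [c1, zero_mul, sub_zero] at a1
  rw [c2, zero_mul, sub_zero] at a2
  rw [c3, zero_mul, sub_zero] at a3
  rw [c4, zero_mul, sub_zero] at a4
  set A : Set ℕ := {n : ℕ | x < n ∧ n ≤ x + h ∧ 4 ≤ {j : ℕ | j < 5 ∧ n + 2 * j ∈ Q}.ncard} with hA
  have hAfin : A.Finite := (Set.finite_Ioc x (x + h)).subset fun _ hn => ⟨hn.1, hn.2.1⟩
  have s1 : num Q {0, 2, 6, 8} x (x + h) ≤ A.ncard := by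
    unfold num
    exact Set.ncard_le_ncard (fun n hn => ⟨hn.1, hn.2.1, of_four Q n hn.2.2⟩) hAfin
  have s2 : A.ncard ≤ num Q {0, 2, 6, 8} x (x + h) + (num Q {2, 4, 6, 8} x (x + h) +
      (num Q {0, 4, 6, 8} x (x + h) + (num Q {0, 2, 4, 8} x (x + h) +
        num Q {0, 2, 4, 6} x (x + h)))) := by
    have t1 : A ⊆ S Q {0, 2, 6, 8} x (x + h) ∪ (S Q {2, 4, 6, 8} x (x + h) ∪
        (S Q {0, 4, 6, 8} x (x + h) ∪ (S Q {0, 2, 4, 8} x (x + h) ∪
          S Q {0, 2, 4, 6} x (x + h)))) := by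
      rintro n ⟨n1, n2, n3⟩
      rcases four_of Q n n3 with h5 | h5 | h5 | h5 | h5
      · exact Or.inl ⟨n1, n2, h5⟩
      · exact Or.inr (Or.inl ⟨n1, n2, h5⟩)
      · exact Or.inr (Or.inr (Or.inl ⟨n1, n2, h5⟩))
      · exact Or.inr (Or.inr (Or.inr (Or.inl ⟨n1, n2, h5⟩)))
      · exact Or.inr (Or.inr (Or.inr (Or.inr ⟨n1, n2, h5⟩)))
    refine (Set.ncard_le_ncard t1 ((S_fin _ _ _ _).union ((S_fin _ _ _ _).union
      ((S_fin _ _ _ _).union ((S_fin _ _ _ _).union (S_fin _ _ _ _)))))).trans ?_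
    refine (Set.ncard_union_le _ _).trans (Nat.add_le_add le_rfl ?_)
    refine (Set.ncard_union_le _ _).trans (Nat.add_le_add le_rfl ?_)
    refine (Set.ncard_union_le _ _).trans (Nat.add_le_add le_rfl ?_)
    exact Set.ncard_union_le _ _
  have hL : 0 ≤ Real.log (x : ℝ) ^ 4 := by positivity
  have s1' : (num Q {0, 2, 6, 8} x (x + h) : ℝ) * Real.log x ^ 4 ≤ A.ncard * Real.log x ^ 4 :=
    mul_le_mul_of_nonneg_right (by exact_mod_cast s1) hL
  have s2' : (A.ncard : ℝ) * Real.log x ^ 4 ≤ (num Q {0, 2, 6, 8} x (x + h) +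
      (num Q {2, 4, 6, 8} x (x + h) + (num Q {0, 4, 6, 8} x (x + h) +
        (num Q {0, 2, 4, 8} x (x + h) + num Q {0, 2, 4, 6} x (x + h))))) * Real.log x ^ 4 :=
    mul_le_mul_of_nonneg_right (by exact_mod_cast s2) hL
  rw [abs_le] at a0 a1 a2 a3 a4 ⊢
  have key : ∀ z : ℝ, z = (A.ncard : ℝ) * Real.log x ^ 4 → -d * h ≤ z - 27 / 2 * C * h →
      z - 27 / 2 * C * h ≤ d * h → -d ≤ z / h - 27 / 2 * C ∧ z / h - 27 / 2 * C ≤ d := by
    intro z _ h6 h7
    have h8 : z / h - 27 / 2 * C = (z - 27 / 2 * C * h) / h := by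
      field_simp
    rw [h8, le_div_iff₀ hh, div_le_iff₀ hh]
    exact ⟨h6, h7⟩
  refine key _ rfl ?_ ?_
  · have : 0 ≤ d * h := by positivity
    linarith [a0.1]
  · have e1 := a0.2
    have e2 := a1.2
    have e3 := a2.2
    have e4 := a3.2
    have e5 := a4.2
    rw [add_mul, add_mul, add_mul, add_mul] at s2'
    linarith

end Pool.Agent.U122.HT
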